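import Pool.Agent.helper36.MP.SpecN

/-! # Project mp, module NPL: path lifting through a natural map -/

set_option autoImplicit false

open Complex Metric Set Filter Topology MeasureTheory

noncomputable section

namespace MPS

theorem NPL_loc {χ : ℂ → ℂ} {v₀ : ℂ} (hχ : AnalyticAt ℂ χ v₀) (hne : deriv χ v₀ ≠ 0) :
    ∃ e : OpenPartialHomeomorph ℂ ℂ, (∀ z, e z = χ z) ∧ v₀ ∈ e.source ∧ χ v₀ ∈ e.target := by
  have h1 := (hχ.hasStrictDerivAt).hasStrictFDerivAt_equiv hne
  refine ⟨h1.toOpenPartialHomeomorph χ, fun z => rfl, h1.mem_toOpenPartialHomeomorph_source,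
    h1.image_mem_toOpenPartialHomeomorph_target⟩

theorem NPL_BBc {k : ℕ} [NeZero k] (b g : ZMod k → ℂ) :
    ContinuousOn (BB b g) {z | ∀ j, z ≠ b j} := by
  unfold BB
  apply continuousOn_finsetSum
  intro i _
  apply ContinuousOn.add
  · apply ContinuousOn.div continuousOn_const
    · exact ((continuous_id.sub continuous_const).pow 2).continuousOn
    · intro z hz
      exact pow_ne_zero 2 (sub_ne_zero.2 (hz i))
  · apply ContinuousOn.div continuousOn_const
    · exact (continuous_id.sub continuous_const).continuousOn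
    · intro z hz
      exact sub_ne_zero.2 (hz i)

theorem NPL : NPL_stmt := by
  intro k _ b g χ G Ω Ω' v₁ w₁ w₂ r hΩ hΩ' hχ hball hG hav hseg hst hint
  set w : ℝ → ℂ := fun t => w₁ + t * (w₂ - w₁) with hw
  have hwc : Continuous w := by
    rw [hw]
    fun_prop
  have hwd : ∀ t : ℝ, HasDerivAt w (w₂ - w₁) t := by
    intro t
    have h1 : HasDerivAt (fun t : ℝ => (t : ℂ)) 1 t := Complex.ofRealCLM.hasDerivAt
    have h2 := (h1.mul_const (w₂ - w₁)).const_add w₁
    rw [one_mul] at h2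
    exact h2
  have hwseg : ∀ t ∈ Icc (0 : ℝ) 1, w t ∈ Ω' := by
    intro t ht
    apply hseg
    rw [segment_eq_image']
    refine ⟨t, ht, ?_⟩
    simp only [hw, Complex.real_smul]
  set F : ℝ → ℝ := fun t => ‖w₂ - w₁‖ * Real.sqrt ‖deriv G (w₁ + t * (w₂ - w₁)) ^ 2 *
    BB b g (G (w₁ + t * (w₂ - w₁)))‖ with hF
  have hF0 : ∀ t, 0 ≤ F t := fun t => mul_nonneg (norm_nonneg _) (Real.sqrt_nonneg _)
  have hGd : ContinuousOn (deriv G) Ω' := (hG.deriv hΩ').continuousOn
  have hFc : ContinuousOn F {t | w t ∈ Ω'} := by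
    have h1 : ContinuousOn (fun z => ‖w₂ - w₁‖ * Real.sqrt ‖deriv G z ^ 2 * BB b g (G z)‖) Ω' := by
      refine continuousOn_const.mul (Real.continuous_sqrt.comp_continuousOn ?_)
      refine ((hGd.pow 2).mul ?_).norm
      exact (NPL_BBc b g).comp hG.continuousOn (fun z hz => hav z hz)
    exact h1.comp hwc.continuousOn (fun t ht => ht)
  have hFI : ∀ a c : ℝ, a ≤ c → (∀ t ∈ Icc a c, w t ∈ Ω') → IntervalIntegrable F volume a c := by
    intro a c hac h
    apply ContinuousOn.intervalIntegrable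
    rw [uIcc_of_le hac]
    exact hFc.mono h
  set I : ℝ → ℝ := fun t => ∫ s in (0 : ℝ)..t, F s with hI
  have hI1 : I 1 < r := hint
  have hI0 : I 0 = 0 := intervalIntegral.integral_same
  have hImono : ∀ a c : ℝ, 0 ≤ a → a ≤ c → c ≤ 1 → I a ≤ I c := by
    intro a c ha hac hc
    have h1 : I a + ∫ s in a..c, F s = I c :=
      intervalIntegral.integral_add_adjacent_intervals
        (hFI 0 a ha fun t ht => hwseg t ⟨ht.1, ht.2.trans (hac.trans hc)⟩)
        (hFI a c hac fun t ht => hwseg t ⟨ha.trans ht.1, ht.2.trans hc⟩)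
    have h2 : 0 ≤ ∫ s in a..c, F s := intervalIntegral.integral_nonneg hac fun s _ => hF0 s
    linarith
  have hIc : ContinuousOn I (Icc 0 1) := by
    have h1 : ContinuousOn (fun t => ∫ s in (0 : ℝ)..t, F s) (uIcc 0 1) :=
      intervalIntegral.continuousOn_primitive_interval
        (by
          rw [uIcc_of_le zero_le_one]
          exact (hFc.mono hwseg).integrableOn_Icc)
    rwa [uIcc_of_le zero_le_one] at h1
  set S : Set ℝ := {t | ∃ v : ℂ, ‖v - v₁‖ ≤ I t ∧ χ v = G (w t)} with hS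
  have hinball : ∀ t ∈ Icc (0 : ℝ) 1, ∀ v : ℂ, ‖v - v₁‖ ≤ I t → v ∈ ball v₁ r := by
    intro t ht v hv
    rw [mem_ball, dist_eq_norm]
    exact (hv.trans (hImono t 1 ht.1 ht.2 le_rfl)).trans_lt hI1
  -- closedness
  have hclosed : IsClosed (S ∩ Icc 0 1) := by
    have hC : IsCompact (Icc (0 : ℝ) 1 ×ˢ closedBall v₁ (I 1)) :=
      isCompact_Icc.prod (isCompact_closedBall _ _)
    have hΦ : ContinuousOn (fun p : ℝ × ℂ => ((I p.1 - ‖p.2 - v₁‖, χ p.2 - G (w p.1)) : ℝ × ℂ))
        (Icc (0 : ℝ) 1 ×ˢ closedBall v₁ (I 1)) := by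
      apply ContinuousOn.prodMk
      · apply ContinuousOn.sub
        · exact hIc.comp continuousOn_fst (fun p hp => hp.1)
        · exact ((continuous_snd.sub continuous_const).norm).continuousOn
      · apply ContinuousOn.sub
        · refine hχ.diff.continuousOn.comp continuousOn_snd (fun p hp => hball ?_)
          exact closedBall_subset_ball hI1 hp.2
        · refine hG.continuousOn.comp (hwc.comp continuous_fst).continuousOn (fun p hp => ?_)
          exact hwseg p.1 hp.1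
    have hK : IsClosed ((Icc (0 : ℝ) 1 ×ˢ closedBall v₁ (I 1)) ∩
        (fun p : ℝ × ℂ => ((I p.1 - ‖p.2 - v₁‖, χ p.2 - G (w p.1)) : ℝ × ℂ)) ⁻¹'
          (Ici (0 : ℝ) ×ˢ ({0} : Set ℂ))) :=
      hΦ.preimage_isClosed_of_isClosed hC.isClosed (isClosed_Ici.prod isClosed_singleton)
    have hKc := hC.of_isClosed_subset hK inter_subset_left
    have h1 : S ∩ Icc 0 1 = Prod.fst '' ((Icc (0 : ℝ) 1 ×ˢ closedBall v₁ (I 1)) ∩
        (fun p : ℝ × ℂ => ((I p.1 - ‖p.2 - v₁‖, χ p.2 - G (w p.1)) : ℝ × ℂ)) ⁻¹'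
          (Ici (0 : ℝ) ×ˢ ({0} : Set ℂ))) := by
      ext t
      constructor
      · rintro ⟨⟨v, hv1, hv2⟩, ht⟩
        refine ⟨(t, v), ⟨⟨ht, ?_⟩, ?_, ?_⟩, rfl⟩
        · rw [mem_closedBall, dist_eq_norm]
          exact hv1.trans (hImono t 1 ht.1 ht.2 le_rfl)
        · show (0 : ℝ) ≤ I t - ‖v - v₁‖
          linarith
        · show χ v - G (w t) = 0
          rw [hv2, sub_self]
      · rintro ⟨⟨t', v⟩, ⟨⟨ht, hv⟩, h3, h4⟩, rfl⟩
        have h3' : (0 : ℝ) ≤ I t' - ‖v - v₁‖ := h3
        have h4' : χ v - G (w t') = 0 := h4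
        exact ⟨⟨v, by linarith, sub_eq_zero.1 h4'⟩, ht⟩
    rw [h1]
    exact (hKc.image continuous_fst).isClosed
  -- local step
  have hstep : ∀ t ∈ S ∩ Ico 0 1, S ∈ 𝓝[>] t := by
    rintro t ⟨⟨v₀, hv₀, hχv⟩, ht⟩
    have htI : t ∈ Icc (0 : ℝ) 1 := ⟨ht.1, ht.2.le⟩
    have hv₀Ω : v₀ ∈ Ω := hball (hinball t htI v₀ hv₀)
    have hAn : ∀ z ∈ Ω, AnalyticAt ℂ χ z := fun z hz => hχ.diff.analyticAt (hΩ.mem_nhds hz)
    have hne : ∀ z ∈ Ω, deriv χ z ≠ 0 := by
      intro z hz h0
      have h1 := hχ.eq z hz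
      rw [h0] at h1
      simp at h1
    obtain ⟨e, he, hes, het⟩ := NPL_loc (hAn v₀ hv₀Ω) (hne v₀ hv₀Ω)
    have hsymm0 : e.symm (G (w t)) = v₀ := by
      rw [← hχv, ← he v₀]
      exact e.left_inv hes
    have htar : G (w t) ∈ e.target := by rw [← hχv]; exact het
    have hγc : ContinuousAt (fun s => G (w s)) t :=
      (hG.continuousOn.continuousAt (hΩ'.mem_nhds (hwseg t htI))).comp hwc.continuousAt
    have hN : ∀ᶠ s in 𝓝 t, w s ∈ Ω' ∧ G (w s) ∈ e.target ∧ e.symm (G (w s)) ∈ Ω := by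
      refine (hwc.continuousAt.eventually (hΩ'.mem_nhds (hwseg t htI))).and
        ((hγc.eventually (e.open_target.mem_nhds htar)).and ?_)
      have h1 : ContinuousAt (fun s => e.symm (G (w s))) t :=
        ContinuousAt.comp (g := e.symm) (f := fun s => G (w s)) (e.symm.continuousAt htar) hγc
      have h2 : (fun s => e.symm (G (w s))) t ∈ Ω := by
        show e.symm (G (w t)) ∈ Ω
        rw [hsymm0]
        exact hv₀Ω
      exact h1.eventually (hΩ.mem_nhds h2)
    obtain ⟨ε, hε, hN'⟩ := Metric.eventually_nhds_iff_ball.1 hN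
    set v : ℝ → ℂ := fun s => e.symm (G (w s)) with hv
    set d : ℝ → ℂ := fun s => (deriv χ (v s))⁻¹ * (deriv G (w s) * (w₂ - w₁)) with hd
    have hχv' : ∀ s ∈ ball t ε, χ (v s) = G (w s) := by
      intro s hs
      rw [← he]
      exact e.right_inv (hN' s hs).2.1
    have hder : ∀ s ∈ ball t ε, HasDerivAt v (d s) s := by
      intro s hs
      obtain ⟨h1, h2, h3⟩ := hN' s hs
      have h4 : HasDerivAt (fun s => G (w s)) (deriv G (w s) * (w₂ - w₁)) s := by
        have h5 : HasDerivAt G (deriv G (w s)) (w s) :=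
          (hG.differentiableAt (hΩ'.mem_nhds h1)).hasDerivAt
        have h6 := (h5.hasFDerivAt.restrictScalars ℝ).comp_hasDerivAt s (hwd s)
        refine h6.congr_deriv ?_
        simp [mul_comm]
      have h7 : HasDerivAt e.symm (deriv χ (v s))⁻¹ (G (w s)) := by
        refine e.hasDerivAt_symm h2 (hne _ h3) ?_
        have h8 : HasDerivAt χ (deriv χ (v s)) (v s) := (hAn _ h3).differentiableAt.hasDerivAt
        exact h8.congr_of_eventuallyEq (Eventually.of_forall he)
      have h9 := (h7.hasFDerivAt.restrictScalars ℝ).comp_hasDerivAt s h4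
      refine h9.congr_deriv ?_
      simp [d, mul_comm]
    have hnorm : ∀ s ∈ ball t ε, ‖d s‖ = F s := by
      intro s hs
      have h3 := (hN' s hs).2.2
      have h1 := hχ.eq (v s) h3
      rw [hχv' s hs] at h1
      have h2 : BB b g (G (w s)) = (deriv χ (v s))⁻¹ ^ 2 := by
        rw [inv_pow]
        exact eq_inv_of_mul_eq_one_right h1
      have h5 : F s = ‖w₂ - w₁‖ * Real.sqrt ‖deriv G (w s) ^ 2 * BB b g (G (w s))‖ := rfl
      rw [h5, h2, ← mul_pow, norm_pow, Real.sqrt_sq (norm_nonneg _)]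
      simp only [d, norm_mul]
      ring
    have hdc : ContinuousOn d (ball t ε) := by
      have hvc : ContinuousOn v (ball t ε) := fun s hs => (hder s hs).continuousAt.continuousWithinAt
      have hχd : ContinuousOn (deriv χ) Ω := (hχ.diff.deriv hΩ).continuousOn
      apply ContinuousOn.mul
      · exact (hχd.comp hvc (fun s hs => (hN' s hs).2.2)).inv₀ (fun s hs => hne _ (hN' s hs).2.2)
      · exact (hGd.comp hwc.continuousOn (fun s hs => (hN' s hs).1)).mul continuousOn_const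
    have hIoo : Ioo t (t + ε) ⊆ S := by
      intro t' ht'
      have hsub : Icc t t' ⊆ ball t ε := by
        intro s hs
        rw [mem_ball, Real.dist_eq, abs_lt]
        constructor <;> linarith [hs.1, hs.2, ht'.2]
      refine ⟨v t', ?_, hχv' t' (hsub ⟨ht'.1.le, le_rfl⟩)⟩
      have h1 : ∫ s in t..t', d s = v t' - v t := by
        apply intervalIntegral.integral_eq_sub_of_hasDerivAt
        · intro s hs
          rw [uIcc_of_le ht'.1.le] at hs
          exact hder s (hsub hs)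
        · apply ContinuousOn.intervalIntegrable
          rw [uIcc_of_le ht'.1.le]
          exact hdc.mono hsub
      have h2 : ‖v t' - v t‖ ≤ ∫ s in t..t', F s := by
        rw [← h1]
        refine (intervalIntegral.norm_integral_le_integral_norm ht'.1.le).trans (le_of_eq ?_)
        apply intervalIntegral.integral_congr
        intro s hs
        rw [uIcc_of_le ht'.1.le] at hs
        exact hnorm s (hsub hs)
      have h3 : I t + ∫ s in t..t', F s = I t' :=
        intervalIntegral.integral_add_adjacent_intervals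
          (hFI 0 t ht.1 fun s hs => hwseg s ⟨hs.1, hs.2.trans ht.2.le⟩)
          (hFI t t' ht'.1.le fun s hs => (hN' s (hsub hs)).1)
      have h4 : v t = v₀ := hsymm0
      calc ‖v t' - v₁‖ = ‖(v t' - v t) + (v₀ - v₁)‖ := by rw [h4]; congr 1; ring
        _ ≤ ‖v t' - v t‖ + ‖v₀ - v₁‖ := norm_add_le _ _
        _ ≤ I t' := by linarith
    exact mem_of_superset (Ioo_mem_nhdsGT (by linarith)) hIoo
  have hzero : (0 : ℝ) ∈ S := by
    refine ⟨v₁, ?_, ?_⟩
    · rw [sub_self, norm_zero, hI0]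
    · rw [← hst]
      simp [hw]
  have hall := hclosed.Icc_subset_of_forall_mem_nhdsWithin hzero hstep
  obtain ⟨v₂, hv₂, hχ₂⟩ := hall ⟨zero_le_one, le_rfl⟩
  refine ⟨v₂, hv₂, ?_⟩
  rw [hχ₂]
  simp [hw]

end MPS
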